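import Pool.Agent.N229.PG.Stm
import Pool.Agent.N292.PK.Main

/-! Project PG, leaf Y: the integral test for zero sets of the Gevrey classes. -/

namespace PG

open Complex Filter Topology Metric Set MeasureTheory

theorem leaf_Y : StmG → StmY := by
  intro hG α hα0 hα1 E hE1 hZ th g hth hanti1 hg hcov
  obtain ⟨f, hGev, hne, hflat⟩ := hZ
  obtain ⟨A, c, hc0, hAup, hlow⟩ := hG α hα0 hα1 f hGev
  have hfd := hGev.1
  have hA : AnalyticOnNhd ℂ f (ball 0 1) := hfd.analyticOnNhd isOpen_ball
  obtain ⟨B, hB⟩ := PK.jensen_lower hA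
  have hflog : ∀ e ∈ E, ∀ z ∈ ball (0 : ℂ) 1, f z ≠ 0 → ∀ d : ℝ, 0 < d → ‖z - e‖ ≤ d →
      Real.log ‖f z‖ ≤ A - c * d ^ (-α) := fun e he z hz hfz d hd hzd =>
    hlow e (hE1 e he) (fun n => hflat n e he) z hz hfz d hd hzd
  have hanti : Antitone th := antitone_nat_of_succ_le hanti1
  -- the main bound
  have main : ∀ N : ℕ, ∑ k ∈ Finset.range N, (th k - th (k + 1)) * g k ^ (-α) ≤
      2 ^ α / c * (2 * Real.pi * (A - B)) := by
    intro N
    -- choice of the radius
    obtain ⟨r, hr1, hr2, hr3⟩ : ∃ r : ℝ, 1 / 2 ≤ r ∧ r < 1 ∧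
        ∀ k < N, 1 - r ≤ g k := by
      induction N with
      | zero => exact ⟨1 / 2, le_rfl, by norm_num, by intro k hk; omega⟩
      | succ N ih =>
        obtain ⟨r, hr1, hr2, hr3⟩ := ih
        refine ⟨max r (1 - g N), le_max_of_le_left hr1, max_lt hr2 ?_, ?_⟩
        · linarith [hg N]
        · intro k hk
          rcases Nat.lt_succ_iff_lt_or_eq.mp hk with h | h
          · have := hr3 k h
            have := le_max_left r (1 - g N)
            linarith
          · subst h
            have := le_max_right r (1 - g k)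
            linarith
    have hr0 : 0 < r := by linarith
    have hball : ∀ x : ℝ, circleMap 0 r x ∈ ball (0 : ℂ) 1 := by
      intro x
      rw [mem_ball_zero_iff, norm_circleMap_zero, abs_of_pos hr0]
      exact hr2
    set φ : ℝ → ℝ := fun x => Real.log ‖f (circleMap 0 r x)‖ with hφ
    have hci : CircleIntegrable (fun z => Real.log ‖f z‖) 0 r := by
      apply MeromorphicOn.circleIntegrable_log_norm
      apply AnalyticOnNhd.meromorphicOn
      apply hA.mono
      rw [abs_of_pos hr0]
      exact sphere_subset_closedBall.trans (closedBall_subset_ball hr2)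
    have hφi : IntervalIntegrable φ volume 0 (2 * Real.pi) := hci
    have hBint : 2 * Real.pi * B ≤ ∫ x in (0 : ℝ)..(2 * Real.pi), φ x := by
      have h1 := hB r hr1 hr2
      unfold Real.circleAverage at h1
      rw [smul_eq_mul] at h1
      have hpi := Real.pi_pos
      have h2 : 2 * Real.pi * B ≤ 2 * Real.pi * ((2 * Real.pi)⁻¹ *
          ∫ x in (0 : ℝ)..(2 * Real.pi), Real.log ‖f (circleMap 0 r x)‖) := by
        gcongr
      rw [← mul_assoc, mul_inv_cancel₀ (by positivity), one_mul] at h2
      exact h2
    have hae := PK.ae_ne hA hne hr0 hr2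
    set ψ : ℝ → ℝ := fun x => A - φ x with hψ
    have hψi : IntervalIntegrable ψ volume 0 (2 * Real.pi) :=
      intervalIntegrable_const.sub hφi
    have hψint : ∫ x in (0 : ℝ)..(2 * Real.pi), ψ x ≤ 2 * Real.pi * (A - B) := by
      rw [hψ, intervalIntegral.integral_sub intervalIntegrable_const hφi,
        intervalIntegral.integral_const]
      simp only [sub_zero, smul_eq_mul]
      linarith
    have hψ0 : ∀ᵐ x : ℝ, 0 ≤ ψ x := by
      filter_upwards [hae] with x hx
      have := hAup _ (hball x) hx
      simp only [hψ, hφ]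
      linarith
    have hth0 : ∀ k, 0 ≤ th k := fun k => (hth k).1
    have hth1 : ∀ k, th k ≤ 2 * Real.pi := fun k => (hth k).2
    have hsubi : ∀ k l : ℕ, IntervalIntegrable ψ volume (th k) (th l) := by
      intro k l
      apply hψi.mono_set
      rw [uIcc_of_le (by positivity : (0 : ℝ) ≤ 2 * Real.pi)]
      apply uIcc_subset_Icc
      · exact ⟨hth0 k, hth1 k⟩
      · exact ⟨hth0 l, hth1 l⟩
    have hmono : ∫ x in (th N)..(th 0), ψ x ≤ ∫ x in (0 : ℝ)..(2 * Real.pi), ψ x := by
      apply intervalIntegral.integral_mono_interval (hth0 N) (hanti (Nat.zero_le N)) (hth1 0)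
        _ hψi
      exact ae_restrict_of_ae hψ0
    have hsum : ∑ k ∈ Finset.range N, ∫ x in (th (k + 1))..(th k), ψ x =
        ∫ x in (th N)..(th 0), ψ x := by
      have h1 := intervalIntegral.sum_integral_adjacent_intervals (f := ψ) (μ := volume)
        (a := th) (n := N) (fun k _ => hsubi k (k + 1))
      rw [intervalIntegral.integral_symm, ← h1, ← Finset.sum_neg_distrib]
      apply Finset.sum_congr rfl
      intro k _
      rw [intervalIntegral.integral_symm]
    have hterm : ∀ k ∈ Finset.range N,
        c / 2 ^ α * ((th k - th (k + 1)) * g k ^ (-α)) ≤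
        ∫ x in (th (k + 1))..(th k), ψ x := by
      intro k hk
      have hkN := Finset.mem_range.mp hk
      have hlow2 : ∫ _ in (th (k + 1))..(th k), c * (2 * g k) ^ (-α) ≤
          ∫ x in (th (k + 1))..(th k), ψ x := by
        apply intervalIntegral.integral_mono_ae_restrict (hanti1 k) intervalIntegrable_const
          (hsubi (k + 1) k)
        filter_upwards [ae_restrict_of_ae hae, ae_restrict_mem measurableSet_Icc] with x hx hxm
        obtain ⟨e, heE, hxe⟩ := hcov k x hxm.1 hxm.2
        have hd : ‖circleMap 0 r x - e‖ ≤ 2 * g k := by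
          have e1 : circleMap 0 r x - e = -((1 - r : ℝ) : ℂ) * Complex.exp ((x : ℂ) * I) +
              (Complex.exp ((x : ℂ) * I) - e) := by
            unfold circleMap
            push_cast
            ring
          rw [e1]
          refine (norm_add_le _ _).trans ?_
          rw [norm_mul, norm_neg, Complex.norm_real, Complex.norm_exp_ofReal_mul_I, mul_one,
            Real.norm_of_nonneg (by linarith)]
          have h3 := hr3 k hkN
          linarith
        have := hflog e heE _ (hball x) hx (2 * g k) (by linarith [hg k]) hd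
        simp only [hψ, hφ]
        linarith
      refine le_trans (le_of_eq ?_) hlow2
      rw [intervalIntegral.integral_const, smul_eq_mul,
        Real.mul_rpow (by norm_num) (hg k).le, Real.rpow_neg (by norm_num : (0 : ℝ) ≤ 2)]
      ring
    have hfin : c / 2 ^ α * ∑ k ∈ Finset.range N, (th k - th (k + 1)) * g k ^ (-α) ≤
        2 * Real.pi * (A - B) := by
      rw [Finset.mul_sum]
      refine (Finset.sum_le_sum hterm).trans ?_
      rw [hsum]
      exact hmono.trans hψint
    have h2 : (0 : ℝ) < 2 ^ α := by positivity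
    calc ∑ k ∈ Finset.range N, (th k - th (k + 1)) * g k ^ (-α)
        = 2 ^ α / c * (c / 2 ^ α *
            ∑ k ∈ Finset.range N, (th k - th (k + 1)) * g k ^ (-α)) := by
          field_simp
      _ ≤ 2 ^ α / c * (2 * Real.pi * (A - B)) := by gcongr
  exact summable_of_sum_range_le (fun k => mul_nonneg (sub_nonneg.mpr (hanti1 k))
    (Real.rpow_nonneg (hg k).le _)) main

end PG
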